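import Mathlib
import Pool.Agent.R473.FV.Fam
import Pool.Agent.R473.FP.Pieces
import Pool.Agent.TH900.YM.Meas

/-!
# Finite-state predictors for the digits of `ζ(9), …, ζ(21)`

It is known that at least one of the seven numbers `ζ(9), ζ(11), …, ζ(21)` is irrational.  Here it
is proved that at least one of them has digits which, in every base, no finite automaton predicts
with few errors.

A predictor with `Q` states reads the digits of a number one after the other and predicts each next
digit from its state.  If the digits of `x` in base `b` are eventually periodic, that is if `x` is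
rational, then some predictor makes only finitely many errors.  We prove:

(1) an inequality for seven predictors, one for each of the seven numbers, which work in arbitrary
bases `b_j ≥ 2`, for arbitrary lengths `N_j`;

(2) for every `θ < 1` at least one of the seven numbers is such that in every base, for infinitely many
`N`, every predictor with at most `N^θ` states makes more than `((1 - θ)/63) log N` errors on the first
`N` digits;

(3) a bound in one base, where the digits of the seven numbers are cut into pieces at `r` common places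
and on each of the pieces they satisfy one linear recurrence of order `m`, which depends on the piece.

The proof uses the simultaneous measure of irrationality `max |ζ(j) - a_j/q| ≥ c q^(-1038)` of the
starting files.  Without errors an automaton is autonomous and its state runs into a cycle, which gives
a rational approximation of the corresponding number; the approximations are combined, on the common
time scale `n log b_j`.
-/

set_option autoImplicit false

open Finset

namespace Pool.Agent.Results.MP_db0fbf_nt.FiniteStatePredictors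

/-- the `i`-th digit of `x` after the point in base `b` -/
noncomputable def digit (b : ℕ) (x : ℝ) (i : ℕ) : ℤ := ⌊x * (b : ℝ) ^ i⌋ % (b : ℤ)

/-- A predictor: a finite automaton with `Q` states, transitions `δ`, initial state `q₀` and
predictions `out`. -/
structure Predictor where
  /-- the number of states -/
  Q : ℕ
  /-- the next state -/
  δ : Fin Q → ℤ → Fin Q
  /-- the initial state -/
  q₀ : Fin Q
  /-- the prediction -/
  out : Fin Q → ℤ

/-- the state of the predictor after it has read `d 1, …, d n` -/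
def Predictor.state (M : Predictor) (d : ℕ → ℤ) (n : ℕ) : Fin M.Q :=
  Pool.Agent.R473.FP.run M.δ M.q₀ d n

/-- the number of errors on the first `N` terms of `d`: the number of `n < N` such that the
prediction made after reading `d 1, …, d n` is not `d (n + 1)` -/
def Predictor.errors (M : Predictor) (d : ℕ → ℤ) (N : ℕ) : ℕ :=
  ((range N).filter fun n => M.out (M.state d n) ≠ d (n + 1)).card

/-- in every base `b ≥ 2`, for infinitely many `N`, all predictors with at most `N ^ θ` states make more
than `c log N` errors on the first `N` digits of `x` -/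
def Hard (θ c x : ℝ) : Prop :=
  ∀ b : ℕ, 2 ≤ b → ∀ N₀ : ℕ, ∃ N : ℕ, N₀ ≤ N ∧ ∀ M : Predictor, (M.Q : ℝ) ≤ (N : ℝ) ^ θ →
    c * Real.log N < M.errors (digit b x) N

/-- the odd numbers from `9` to `21` -/
def T : Finset ℕ := {9, 11, 13, 15, 17, 19, 21}

/-- `ζ(i) = ∑ 1/(n+1)^i` -/
noncomputable def zeta (i : ℕ) : ℝ := ∑' n : ℕ, 1 / ((n : ℝ) + 1) ^ i

theorem log_num : 7 * Real.log ((7 : ℝ) * 1038) < 63 := by
  suffices h : Real.log ((7 : ℝ) * 1038) < 9 by
    generalize Real.log (7 * 1038) = t at h ⊢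
    linarith
  rw [Real.log_lt_iff_lt_exp (by positivity)]
  have h2 : Real.exp 9 = Real.exp 1 ^ 9 := by
    rw [← Real.exp_nat_mul]
    norm_num
  rw [h2]
  have h3 := Real.exp_one_gt_d9
  calc (7 * 1038 : ℝ) < 2.7182818283 ^ 9 := by norm_num
    _ ≤ _ := pow_le_pow_left₀ (by norm_num) h3.le 9

/-- the simultaneous measure -/
theorem meas : ∃ c : ℝ, 0 < c ∧ ∀ q : ℕ, 1 ≤ q → ∀ p : ℕ → ℤ, ∃ j ∈ T,
    c ≤ (q : ℝ) ^ ((1038 : ℝ) - 1) * |(q : ℝ) * zeta j - p j| := by
  obtain ⟨c, hc, hmeas⟩ := Pool.Agent.TH900.YM.measure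
  refine ⟨c, hc, fun q hq p => ?_⟩
  obtain ⟨j, hj, h1⟩ := hmeas p q hq
  refine ⟨j, hj, ?_⟩
  have hq0 : (0 : ℝ) < q := by exact_mod_cast hq
  have e1 : (q : ℝ) ^ ((1038 : ℝ) - 1) = (q : ℝ) ^ 1037 := by
    rw [← Real.rpow_natCast]
    norm_num
  have e2 : |(q : ℝ) * zeta j - p j| = q * |zeta j - (p j : ℝ) / q| := by
    rw [← abs_of_pos hq0, ← abs_mul, abs_of_pos hq0]
    congr 1
    field_simp
  have h2 : c / (q : ℝ) ^ 1038 ≤ |zeta j - (p j : ℝ) / q| := h1
  rw [div_le_iff₀ (by positivity)] at h2
  rw [e1, e2]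
  calc c ≤ |zeta j - (p j : ℝ) / q| * (q : ℝ) ^ 1038 := h2
    _ = (q : ℝ) ^ 1037 * (q * |zeta j - (p j : ℝ) / q|) := by ring

/-- **Predicting the digits of `ζ(9), …, ζ(21)`.** -/
theorem result :
    -- (1) a predictor for each of the numbers
    (∃ C : ℝ, ∀ (b : ℕ → ℕ) (M : ℕ → Predictor) (N : ℕ → ℕ), (∀ j ∈ T, 2 ≤ b j) →
      ∃ j ∈ T, N j * Real.log (b j) ≤
        (∑ i ∈ range (∑ j ∈ T, (M j).errors (digit (b j) (zeta j)) (N j) + 1), (7266 : ℝ) ^ i) *
          (1038 * ∑ j ∈ T, (((M j).Q : ℝ) + 1) * Real.log (b j) + C)) ∧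
    -- (2) one of the numbers is hard for all predictors in all bases
    (∀ θ : ℝ, 0 ≤ θ → θ < 1 → ∃ j ∈ T, Hard θ ((1 - θ) / 63) (zeta j)) ∧
    -- (3) pieces with a common linear recurrence
    (∃ C : ℝ, ∀ b : ℕ, 2 ≤ b → ∀ (N m r : ℕ) (E : Finset ℕ), E.card ≤ r →
      (∀ u v, u ≤ v → v ≤ N → (∀ i ∈ E, i < u ∨ v ≤ i) → ∃ c : ℕ → ℚ, ∀ j ∈ T, ∀ i, u ≤ i →
        i + m < v → (digit b (zeta j) (i + m + 1) : ℚ) =
          ∑ l ∈ range m, c l * (digit b (zeta j) (i + l + 1) : ℚ)) →
      (N : ℝ) ≤ (∑ i ∈ range (r + 1), (1038 : ℝ) ^ (i + 1)) *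
        (m + C * Real.sqrt (((m : ℝ) + 1) * Real.log ((m : ℝ) + 2)))) := by
  obtain ⟨c, hc, hM⟩ := meas
  have hcard : T.card = 7 := by decide
  refine ⟨⟨Real.log 2 + |Real.log c|, fun b M N hb => ?_⟩, fun θ h0 h1 => ?_, ?_⟩
  · have h := Pool.Agent.R473.FV.fam_sep T zeta 1038 c (by norm_num) hc hM b hb (fun j => (M j).Q)
      (fun j => (M j).δ) (fun j => (M j).q₀) (fun j => (M j).out) N
    rw [hcard] at h
    have e : ((7 : ℕ) : ℝ) * 1038 = 7266 := by norm_num
    rw [e] at h
    exact h
  · obtain ⟨j, hj, h⟩ := Pool.Agent.R473.FV.fam_hard T zeta 1038 c (by norm_num) hc hM θ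
      ((1 - θ) / 63) h0 (by
        have : 0 < 1 - θ := by linarith
        positivity) (by
        rw [hcard]
        have h2 : 0 < 1 - θ := by linarith
        have h3 := log_num
        push_cast
        rw [div_mul_eq_mul_div, div_lt_iff₀ (by norm_num)]
        exact mul_lt_mul_of_pos_left h3 h2)
    exact ⟨j, hj, fun b hb N₀ => by
      obtain ⟨N, hN, h4⟩ := h b hb N₀
      exact ⟨N, hN, fun M hQ => h4 M.Q M.δ M.q₀ M.out hQ⟩⟩
  · obtain ⟨t, ht⟩ : ∃ t : Fin 7 → ℕ, ∀ i, t i = 9 + 2 * i := ⟨_, fun _ => rfl⟩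
    have htT : ∀ i, t i ∈ T := fun i => by
      rw [ht]
      fin_cases i <;> decide
    have hsurj : ∀ j ∈ T, ∃ i, t i = j := by
      intro j hj
      fin_cases hj
      · exact ⟨0, by rw [ht]; rfl⟩
      · exact ⟨1, by rw [ht]; rfl⟩
      · exact ⟨2, by rw [ht]; rfl⟩
      · exact ⟨3, by rw [ht]; rfl⟩
      · exact ⟨4, by rw [ht]; rfl⟩
      · exact ⟨5, by rw [ht]; rfl⟩
      · exact ⟨6, by rw [ht]; rfl⟩
    have htinj : ∀ i i', t i = t i' → i = i' := fun i i' h => by
      rw [ht, ht] at h
      exact Fin.ext (by omega)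
    obtain ⟨C, hC0, hC⟩ := Pool.Agent.R473.FP.pieces 7 (fun i => zeta (t i)) 1038 c 0
      (by norm_num) hc le_rfl (fun q hq p => by
        obtain ⟨j, hj, h⟩ := hM q hq fun n => if h : ∃ i, t i = n then p h.choose else 0
        obtain ⟨i, hi⟩ := hsurj j hj
        refine ⟨i, ?_⟩
        subst hi
        rw [Real.rpow_zero, mul_one]
        have hex : ∃ i', t i' = t i := ⟨i, rfl⟩
        rw [dif_pos hex, htinj _ _ hex.choose_spec] at h
        exact h)
    refine ⟨C, fun b hb N m r E hE hrec => ?_⟩
    refine hC b hb N m r E hE fun u v huv hvN hE' => ?_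
    obtain ⟨c', hc'⟩ := hrec u v huv hvN hE'
    exact ⟨c', fun i => hc' (t i) (htT i)⟩

end Pool.Agent.Results.MP_db0fbf_nt.FiniteStatePredictors
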