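import Mathlib
import Pool.Agent.R701.LV.Liou
import Pool.Agent.TH900.YM.Meas

/-!
# The numbers `ζ(9), …, ζ(21)` and fields generated by Liouville numbers

Let `q_0, q_1, …` be integers `≥ 2`. A real number `x` is *approximable* if for some `h` and every `κ` there
are, for all large `k`, integers `u` and `1 ≤ v ≤ q_k ^ h` with `|x - u / v| ≤ q_k ^ (-κ)`. The approximable
numbers form a field. Every Liouville number is approximable for some sequence; for `q_k = 2 ^ ((k + 2)!)` the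
field has transcendence degree the cardinality of the continuum.

**Theorem.** For every sequence one of `ζ(9), …, ζ(21)` (odd arguments) is not approximable. In particular,
for every Liouville number `ξ` one of them is not in `ℚ(ξ)`.

The proof replaces the numbers by rational numbers with a common denominator and uses the simultaneous measure
for these numbers in the starting file `MeasureZeta9To21`.
-/

set_option autoImplicit false

namespace Pool.Agent.Results.MP_db0fbf_nt.LiouvilleFields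

/-- For some `h` and every `κ`, for all large `k`, there are integers `u` and `1 ≤ v ≤ (q k) ^ h` with
`|x - u / v| ≤ (q k) ^ (-κ)`. -/
def Approximable (q : ℕ → ℕ) (x : ℝ) : Prop :=
  ∃ h : ℕ, ∀ κ : ℕ, ∃ k₀ : ℕ, ∀ k ≥ k₀, ∃ (u : ℤ) (v : ℕ), 1 ≤ v ∧ v ≤ q k ^ h ∧
    |x - (u : ℝ) / v| ≤ (((q k : ℕ) : ℝ) ^ κ)⁻¹

/-- The value `ζ(j)`, for `j ≥ 2`. -/
noncomputable def zetaValue (j : ℕ) : ℝ := ∑' n : ℕ, 1 / ((n : ℝ) + 1) ^ j

/-- One of `ζ(9), …, ζ(21)` is not in `L`. -/
def Avoids (L : IntermediateField ℚ ℝ) : Prop :=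
  ∃ j : ℕ, Odd j ∧ 9 ≤ j ∧ j ≤ 21 ∧ zetaValue j ∉ L

/-- The sequence `2 ^ ((k + 2)!)`. -/
def q₀ (k : ℕ) : ℕ := 2 ^ (k + 2).factorial

/-- Let `q_k ≥ 2` be integers. The approximable numbers form a field which does not contain all the numbers
`ζ(j)`, `j` odd, `9 ≤ j ≤ 21`. For every Liouville number `ξ` not all these numbers are in `ℚ(ξ)`. For
`q_k = 2 ^ ((k + 2)!)` the field of the approximable numbers has transcendence degree continuum. -/
theorem result :
    (∀ q : ℕ → ℕ, (∀ k, 2 ≤ q k) →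
      ∃ L : IntermediateField ℚ ℝ, (∀ x, x ∈ L ↔ Approximable q x) ∧ Avoids L) ∧
    (∀ ξ : ℝ, Liouville ξ → Avoids (IntermediateField.adjoin ℚ {ξ})) ∧
    (∃ L : IntermediateField ℚ ℝ, (∀ x, x ∈ L ↔ Approximable q₀ x) ∧
      Algebra.trdeg ℚ L = Cardinal.continuum ∧ Avoids L) := by
  classical
  obtain ⟨c, hc, hm⟩ := Pool.Agent.TH900.YM.measure
  set S : Finset ℕ := {9, 11, 13, 15, 17, 19, 21} with hS
  have key : ∀ (a : S → ℤ) (b : ℕ), 0 < b →
      ∃ i : S, c / (b : ℝ) ^ 1038 ≤ |zetaValue (i : ℕ) - a i / b| := by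
    intro a b hb
    obtain ⟨j, hj, h1⟩ := hm (fun j => if h : j ∈ S then a ⟨j, h⟩ else 0) b hb
    refine ⟨⟨j, hj⟩, ?_⟩
    rw [dif_pos hj] at h1
    exact h1
  have conv : ∀ L : IntermediateField ℚ ℝ, (∃ i : S, zetaValue (i : ℕ) ∉ L) → Avoids L := by
    rintro L ⟨⟨j, hj⟩, h⟩
    refine ⟨j, ?_, ?_, ?_, h⟩
    · fin_cases hj <;> decide
    · fin_cases hj <;> decide
    · fin_cases hj <;> decide
  obtain ⟨h1, h2, L, h3, h4, h5⟩ :=
    Pool.Agent.R701.LV.family (fun i : S => zetaValue (i : ℕ)) c hc 1038 key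
  refine ⟨fun q hq => ?_, fun ξ hξ => conv _ (h2 ξ hξ), L, h3, h4, conv _ h5⟩
  obtain ⟨L', h6, h7⟩ := h1 q hq
  exact ⟨L', h6, conv _ h7⟩

end Pool.Agent.Results.MP_db0fbf_nt.LiouvilleFields
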