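import Mathlib
import Pool.Agent.R473.HD.Gen

/-!
# The digits of `ζ(9)^a π^b`

It is not known whether `ζ(9)` is irrational, nor whether `ζ(9)/π^s` is for any rational `s`; since `π`
is transcendental, `α ζ(9)^a π^b` can be algebraic only for the vectors `(a, b)` on one line.  We prove
a form of this for the digits: among all numbers `α ζ(9)^a x^b`, where `x` is `e`, `π` or the logarithm
of a rational number `> 1`, `a` and `b` are rational and `α ≠ 0` is algebraic, the vectors `(a, b)` of
those whose digits in some base have low complexity lie on one line.  For instance, for at most one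
rational `s` there is an algebraic `α ≠ 0` such that `α ζ(9)/π^s` is of this kind; and if `ζ(9)` is
rational, then all the numbers `α ζ(9)^a π^b` with `b ≠ 0` have digits of high complexity.

A relation of degree `1` for a block of digits is a linear recurrence; a finite automaton with `Q`
states which predicts every next digit and makes `E` errors cuts the digits into `E + 1` blocks with
relations of degree `1` and order `≤ Q`.  The digits of a rational number have such a cut with `E = 0`
and bounded `Q` in every base.  A number `x` is called hard (for the degree `r` and `θ < 1`) if for some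
`c > 0` in every base, for infinitely many `N`, its first `N` digits cannot be cut by at most `c log N` cuts
into blocks with relations of degree `≤ r` with coefficients of degree `≤ N^θ`.

The proof uses the joint measure `Pool.Agent.R356.joint`: if `x` is `e`, `π` or `log q` and algebraic
over `ℚ(u, v)`, then integer polynomials `P(u)`, `Q(v)` of bounded degree cannot both be very small, so
that the blocks of `u` and of `v` cannot both be long (`Pool.Agent.R473.FP.cut_pair`).
-/

set_option autoImplicit false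

namespace Pool.Agent.Results.MP_db0fbf_nt.PredictableMonomials

open Finset Polynomial

/-- the `i`-th digit of `x` after the point in base `b` -/
noncomputable def digit (b : ℕ) (x : ℝ) (i : ℕ) : ℤ := ⌊x * (b : ℝ) ^ i⌋ % (b : ℤ)

/-- the polynomial `d_(u+1) X + ⋯ + d_(u+n) X^n` of a block of digits of `x` in base `b` -/
noncomputable def blockPoly (b : ℕ) (x : ℝ) (u n : ℕ) : ℚ[X] :=
  ∑ l ∈ Icc 1 n, C (digit b x (u + l) : ℚ) * X ^ l

/-- there are polynomials `h_0, …, h_r` over `ℚ` of degree `≤ k`, not all zero, such that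
`h_0 + h_1 D + ⋯ + h_r D^r` is divisible by `X^(q-p+1)`, where `D` is the polynomial of the block of
the digits of `x` from the `(p+1)`-st to the `q`-th place -/
def BlockRelation (b : ℕ) (x : ℝ) (r p q k : ℕ) : Prop :=
  ∃ h : Fin (r + 1) → ℚ[X], h ≠ 0 ∧ (∀ j, (h j).natDegree ≤ k) ∧
    X ^ (q - p + 1) ∣ ∑ j, h j * blockPoly b x p (q - p) ^ (j : ℕ)

/-- The digits of `x` with the numbers `e + 1`, `e ∈ E`, are omitted; they cut the first `N` digits
into blocks.  Every block satisfies a relation of degree `≤ r` with coefficients of degree `≤ k`. -/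
def Cut (b : ℕ) (x : ℝ) (r k N : ℕ) (E : Finset ℕ) : Prop :=
  ∀ p q, p ≤ q → q ≤ N → (p = 0 ∨ ∃ e ∈ E, p = e + 1) → (q = N ∨ q ∈ E) →
    (∀ e ∈ E, e < p ∨ q ≤ e) → BlockRelation b x r p q k

/-- There is `c > 0` such that in every base, for infinitely many `N`, the first `N` digits of `x`
cannot be cut by at most `c log N` cuts into blocks which satisfy relations of degree `≤ r` with
coefficients of degree at most `N ^ θ`. -/
def Hard (r : ℕ) (θ x : ℝ) : Prop :=
  ∃ c : ℝ, 0 < c ∧ ∀ b : ℕ, 2 ≤ b → ∀ N₀ : ℕ, ∃ N : ℕ, N₀ ≤ N ∧ ∀ (k : ℕ) (E : Finset ℕ),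
    (k : ℝ) ≤ (N : ℝ) ^ θ → Cut b x r k N E → c * Real.log N < E.card

/-- the vectors `(a, b)` of rational numbers such that for some real algebraic `α ≠ 0` the number
`α z^a x^b` is not hard -/
def Easy (r : ℕ) (θ z x : ℝ) : Set (ℚ × ℚ) :=
  {p | ∃ α : ℝ, α ≠ 0 ∧ IsAlgebraic ℚ α ∧ ¬ Hard r θ (α * z ^ (p.1 : ℝ) * x ^ (p.2 : ℝ))}

/-- `ζ(i) = ∑ 1/(n+1)^i` -/
noncomputable def zeta (i : ℕ) : ℝ := ∑' n : ℕ, 1 / ((n : ℝ) + 1) ^ i

lemma zeta_pos (i : ℕ) (hi : 2 ≤ i) : 0 < zeta i := by
  unfold zeta
  have h := (Real.summable_one_div_nat_pow (p := i)).mpr (by omega)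
  have h2 : Summable fun n : ℕ => 1 / ((n : ℝ) + 1) ^ i := by
    refine ((summable_nat_add_iff 1).mpr h).congr fun n => ?_
    push_cast
    rfl
  exact h2.tsum_pos (fun n => by positivity) 0 (by norm_num)

/-- Let `x` be `e`, `π` or the logarithm of a rational number `> 1`, let `r ≥ 1` and `0 ≤ θ < 1`, and let
`z = ζ(9)`.
**(1)** The vectors `(a, b)` of rational numbers such that `α z^a x^b` is not hard for some real algebraic
`α ≠ 0` lie on one line through the origin. **(2)** If `z x^s` is algebraic, `s` rational, they lie on the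
line `b = s a`; in particular, if `z` is algebraic then `α z^a x^b` is hard for all rational `a`, all
rational `b ≠ 0` and all real algebraic `α ≠ 0`. -/
theorem result : ∀ x : ℝ,
    (x = Real.exp 1 ∨ x = Real.pi ∨ ∃ q : ℚ, 1 < q ∧ x = Real.log q) →
    ∀ (r : ℕ) (θ : ℝ), 1 ≤ r → 0 ≤ θ → θ < 1 →
      (∀ p ∈ Easy r θ (zeta 9) x, ∀ q ∈ Easy r θ (zeta 9) x, p.1 * q.2 = p.2 * q.1) ∧
      (∀ s : ℚ, IsAlgebraic ℚ (zeta 9 * x ^ (s : ℝ)) → ∀ p ∈ Easy r θ (zeta 9) x, p.2 = s * p.1) ∧
      (IsAlgebraic ℚ (zeta 9) → ∀ (a b : ℚ) (α : ℝ), b ≠ 0 → α ≠ 0 → IsAlgebraic ℚ α →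
        Hard r θ (α * (zeta 9) ^ (a : ℝ) * x ^ (b : ℝ))) := by
  intro x hx r θ hr hθ hθ1
  have hx0 : 0 < x := by
    rcases hx with rfl | rfl | ⟨q, hq, rfl⟩
    · exact Real.exp_pos _
    · exact Real.pi_pos
    · exact Real.log_pos (by exact_mod_cast hq)
  obtain ⟨z, hzz⟩ : ∃ z : ℝ, z = (zeta 9) := ⟨_, rfl⟩
  have hz : 0 < z := by
    rw [hzz]
    exact zeta_pos 9 (by norm_num)
  rw [← hzz]
  have hline : ∀ p ∈ Easy r θ z x, ∀ q ∈ Easy r θ z x, p.1 * q.2 = p.2 * q.1 := fun p hp q hq =>
    Pool.Agent.R473.HD.line x hx z hz r θ hθ hθ1 p q hp hq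
  have halg : ∀ s : ℚ, IsAlgebraic ℚ (z * x ^ (s : ℝ)) → ∀ p ∈ Easy r θ z x, p.2 = s * p.1 := by
    intro s hs p hp
    have h1 : ((1 : ℚ), s) ∈ Easy r θ z x := by
      refine Pool.Agent.R473.HD.mem_of_alg x z hx0 hz r hr θ 1 s ?_
      rw [Rat.cast_one, Real.rpow_one]
      exact hs
    have h2 := hline _ h1 _ hp
    dsimp only at h2
    linarith
  refine ⟨hline, halg, fun hza a b α hb hα hαa => ?_⟩
  by_contra hno
  have h1 := halg 0 (by rw [Rat.cast_zero, Real.rpow_zero, mul_one]; exact hza) (a, b)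
    ⟨α, hα, hαa, hno⟩
  dsimp only at h1
  rw [zero_mul] at h1
  exact hb h1

end Pool.Agent.Results.MP_db0fbf_nt.PredictableMonomials
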